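import Mathlib
import Pool.Agent.VM.StmtsW

/-!
# The modules OFF and PDV

OFF: the quotients modulo `u` of two different primes in `(D, 2 D]` with congruent `k`-th powers
are different `k`-th roots of unity modulo `u`, if `(2 D) ^ 2 < u`.
PDV: a positive integer less than `D ^ r` has less than `r` prime divisors in `(D, 2 D]`.
-/

set_option autoImplicit false

namespace Pool.Agent.VM.H29

theorem off : OffStmt := by
  intro k D u _hk hu
  have hu0 : 0 < u := lt_of_le_of_lt (Nat.zero_le _) hu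
  have : NeZero u := ⟨hu0.ne'⟩
  have hun : ∀ d : ℕ, d.Prime → ¬ d ∣ u → IsUnit ((d : ℕ) : ZMod u) := by
    intro d hd hdu
    exact (ZMod.isUnit_iff_coprime d u).2 ((Nat.Prime.coprime_iff_not_dvd hd).2 hdu)
  apply Finset.card_le_card_of_injOn
    (fun v : ℕ × ℕ => ((((v.1 : ℕ) : ZMod u)) * (((v.2 : ℕ) : ZMod u))⁻¹).val)
  · intro v hv
    rw [Finset.mem_coe, Finset.mem_filter] at hv
    obtain ⟨_, h1, h2, _, h3, h4, h5⟩ := hv
    have u1 := hun v.1 h1 h3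
    have u2 := hun v.2 h2 h4
    have e2 : ((v.2 : ℕ) : ZMod u) * (((v.2 : ℕ) : ZMod u))⁻¹ = 1 :=
      ZMod.mul_inv_of_unit _ u2
    have u3 : IsUnit ((((v.2 : ℕ) : ZMod u))⁻¹) := IsUnit.of_mul_eq_one_right _ e2
    rw [Finset.mem_coe, Finset.mem_filter, Finset.mem_range]
    refine ⟨ZMod.val_lt _, ?_, ?_⟩
    · rw [← ZMod.isUnit_iff_coprime, ZMod.natCast_zmod_val]
      exact u1.mul u3
    · rw [← ZMod.natCast_eq_natCast_iff, Nat.cast_pow, ZMod.natCast_zmod_val, mul_pow, Nat.cast_one]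
      have h6 : ((v.1 : ℕ) : ZMod u) ^ k = ((v.2 : ℕ) : ZMod u) ^ k := by
        have h7 := (ZMod.natCast_eq_natCast_iff _ _ _).2 h5
        rwa [Nat.cast_pow, Nat.cast_pow] at h7
      rw [h6, ← mul_pow, e2, one_pow]
  · intro v hv w hw hvw
    rw [Finset.mem_coe, Finset.mem_filter, Finset.mem_product, Finset.mem_Ioc, Finset.mem_Ioc] at hv hw
    obtain ⟨⟨⟨_, a1⟩, _, a2⟩, h1, h2, h12, _, h4, _⟩ := hv
    obtain ⟨⟨⟨_, b1⟩, _, b2⟩, g1, g2, _, _, g4, _⟩ := hw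
    have u2 := hun v.2 h2 h4
    have w2 := hun w.2 g2 g4
    have e2 : ((v.2 : ℕ) : ZMod u) * (((v.2 : ℕ) : ZMod u))⁻¹ = 1 :=
      ZMod.mul_inv_of_unit _ u2
    have f2 : ((w.2 : ℕ) : ZMod u) * (((w.2 : ℕ) : ZMod u))⁻¹ = 1 :=
      ZMod.mul_inv_of_unit _ w2
    have h6 : ((v.1 : ℕ) : ZMod u) * (((v.2 : ℕ) : ZMod u))⁻¹ =
        ((w.1 : ℕ) : ZMod u) * (((w.2 : ℕ) : ZMod u))⁻¹ := ZMod.val_injective u hvw
    have h7 : ((v.1 * w.2 : ℕ) : ZMod u) = ((w.1 * v.2 : ℕ) : ZMod u) := by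
      push_cast
      calc ((v.1 : ℕ) : ZMod u) * ((w.2 : ℕ) : ZMod u)
          = (((v.1 : ℕ) : ZMod u) * (((v.2 : ℕ) : ZMod u))⁻¹) * ((v.2 : ℕ) : ZMod u) *
              ((w.2 : ℕ) : ZMod u) := by
            rw [mul_assoc ((v.1 : ℕ) : ZMod u), mul_comm (((v.2 : ℕ) : ZMod u))⁻¹, e2, mul_one]
        _ = (((w.1 : ℕ) : ZMod u) * (((w.2 : ℕ) : ZMod u))⁻¹) * ((v.2 : ℕ) : ZMod u) *
              ((w.2 : ℕ) : ZMod u) := by rw [h6]
        _ = ((w.1 : ℕ) : ZMod u) * ((v.2 : ℕ) : ZMod u) *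
              (((w.2 : ℕ) : ZMod u) * (((w.2 : ℕ) : ZMod u))⁻¹) := by ring
        _ = ((w.1 : ℕ) : ZMod u) * ((v.2 : ℕ) : ZMod u) := by rw [f2, mul_one]
    have h8 : v.1 * w.2 ≡ w.1 * v.2 [MOD u] := (ZMod.natCast_eq_natCast_iff _ _ _).1 h7
    have h9 : v.1 * w.2 = w.1 * v.2 := by
      have l1 : v.1 * w.2 < u := lt_of_le_of_lt (by
        rw [pow_two]; exact Nat.mul_le_mul a1 b2) hu
      have l2 : w.1 * v.2 < u := lt_of_le_of_lt (by
        rw [pow_two]; exact Nat.mul_le_mul b1 a2) hu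
      exact Nat.ModEq.eq_of_lt_of_lt h8 l1 l2
    have h10 : v.1 ∣ w.1 * v.2 := ⟨w.2, h9.symm⟩
    have h11 : v.1 = w.1 := by
      rcases (Nat.Prime.dvd_mul h1).1 h10 with h | h
      · exact (Nat.prime_dvd_prime_iff_eq h1 g1).1 h
      · exact absurd ((Nat.prime_dvd_prime_iff_eq h1 h2).1 h) h12
    have h12' : v.2 = w.2 := by
      rw [h11] at h9
      exact (Nat.eq_of_mul_eq_mul_left g1.pos h9).symm
    exact Prod.ext h11 h12'

theorem pdv : PdvStmt := by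
  intro D r m _hD hm hlt
  by_contra hc
  have hc' : r ≤ ((Finset.Ioc D (2 * D)).filter (fun d => d.Prime ∧ d ∣ m)).card := not_lt.1 hc
  set S := (Finset.Ioc D (2 * D)).filter (fun d => d.Prime ∧ d ∣ m) with hS
  have hdvd : ∏ d ∈ S, d ∣ m := by
    apply Finset.prod_primes_dvd
    · intro d hd
      rw [hS, Finset.mem_filter] at hd
      exact hd.2.1.prime
    · intro d hd
      rw [hS, Finset.mem_filter] at hd
      exact hd.2.2
  have h1 : D ^ S.card ≤ ∏ d ∈ S, d := by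
    rw [← Finset.prod_const]
    apply Finset.prod_le_prod'
    intro d hd
    rw [hS, Finset.mem_filter, Finset.mem_Ioc] at hd
    exact hd.1.1.le
  have h2 : ∏ d ∈ S, d ≤ m := Nat.le_of_dvd hm hdvd
  have h3 : D ^ r ≤ D ^ S.card := Nat.pow_le_pow_right (by omega) hc'
  omega

end Pool.Agent.VM.H29
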